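import Pool.Agent.Q78.SV.Final

/-!
# Spectral variation for normal matrices with spectra on two segments that are not parallel

`Q78.SV.specDist α β` is the minimum over all permutations `σ` of `max_k |α k - β (σ k)|`, and
`‖Matrix.toEuclideanCLM M‖` is the operator norm of the matrix `M` on the Euclidean space `ℂⁿ`.
-/

namespace Pool.Agent.Results.MP_16c41e_an.CrossingSegments

open Matrix Polynomial Q78.SV

/-- Q1, affirmative answer: let `A` and `B` be normal `n × n` matrices with eigenvalue lists `α` and
`β` (counted with multiplicity), whose spectra lie on two segments that are not parallel (for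
instance, on two segments that cross). Then the spectral distance of `A` and `B` is at most the
operator norm of `A - B`. -/
theorem result {n : ℕ} (A B : Matrix (Fin n) (Fin n) ℂ) (hA : IsStarNormal A)
    (hB : IsStarNormal B) (p q p' q' : ℂ) (hpar : LinearIndependent ℝ ![q - p, q' - p'])
    (hσA : spectrum ℂ A ⊆ segment ℝ p q) (hσB : spectrum ℂ B ⊆ segment ℝ p' q')
    (α β : Fin n → ℂ) (hα : A.charpoly = ∏ i, (X - C (α i)))
    (hβ : B.charpoly = ∏ i, (X - C (β i))) :
    specDist α β ≤ ‖toEuclideanCLM (𝕜 := ℂ) (A - B)‖ := by
  have hseg : ∀ {x y z : ℂ}, z ∈ segment ℝ x y → ∃ t : ℝ, z = x + t * (y - x) := by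
    intro x y z hz
    rw [segment_eq_image'] at hz
    obtain ⟨t, -, rfl⟩ := hz
    exact ⟨t, by simp [Complex.real_smul]⟩
  exact specDist_le hA hB hpar (fun z hz => hseg (hσA hz)) (fun z hz => hseg (hσB hz)) hα hβ

end Pool.Agent.Results.MP_16c41e_an.CrossingSegments
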